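import Mathlib

namespace Pool.Agent.Results.MP_9bf48e_al.NotClosed

open Matrix

/-- The elementary net subgroup: the subgroup of `GL(n,K)` generated by the transvections
`t_ij(a) = e + a e_ij` with `i ≠ j`, `a ∈ σ i j`. -/
def netGroup {n : ℕ} {K : Type} [Field K] (σ : Fin n → Fin n → Set K) :
    Subgroup (GL (Fin n) K) :=
  Subgroup.closure {g | ∃ i j a, i ≠ j ∧ a ∈ σ i j ∧
    (g : Matrix (Fin n) (Fin n) K) = 1 + Matrix.single i j a}

/-- The elementary net `σ` is closed. -/
def IsClosedNet {n : ℕ} {K : Type} [Field K] (σ : Fin n → Fin n → Set K) : Prop :=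
  ∀ i j a, i ≠ j → ∀ g ∈ netGroup σ,
    (g : Matrix (Fin n) (Fin n) K) = 1 + Matrix.single i j a → a ∈ σ i j

section
variable {n : ℕ} {K : Type} [Field K] {i j : Fin n}

def D (i j : Fin n) (p q r s : K) : Matrix (Fin n) (Fin n) K :=
  1 + (p - 1) • single i i 1 + q • single i j 1 + r • single j i 1 + (s - 1) • single j j 1

theorem D_mul (h : i ≠ j) (p q r s p' q' r' s' : K) :
    D i j p q r s * D i j p' q' r' s' =
      D i j (p * p' + q * r') (p * q' + q * s') (r * p' + s * r') (r * q' + s * s') := by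
  simp only [D, mul_add, add_mul, mul_one, one_mul, smul_mul_assoc, mul_smul_comm,
    single_mul_single_same, single_mul_single_of_ne _ _ _ _ h,
    single_mul_single_of_ne _ _ _ _ h.symm, smul_zero]
  module

theorem D_up (a : K) : D i j 1 a 0 1 = 1 + single i j a := by
  simp [D]

theorem D_low (a : K) : D i j 1 0 a 1 = 1 + single j i a := by
  simp [D]

def up (h : i ≠ j) (a : K) : GL (Fin n) K :=
  ⟨D i j 1 a 0 1, D i j 1 (-a) 0 1, by rw [D_mul h]; simp [D], by rw [D_mul h]; simp [D]⟩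

def low (h : i ≠ j) (a : K) : GL (Fin n) K :=
  ⟨D i j 1 0 a 1, D i j 1 0 (-a) 1, by rw [D_mul h]; simp [D], by rw [D_mul h]; simp [D]⟩

theorem key (h : i ≠ j) (α : K) (hα : α ^ 4 = -1) :
    ((up h α * low h (α ^ 3) * up h α * (up h (-1) * low h 1 * up h (-1)) * up h 1 *
      (up h 1 * low h (-1) * up h 1) * (up h (-α) * low h (-α ^ 3) * up h (-α)) :
        GL (Fin n) K) : Matrix (Fin n) (Fin n) K) = 1 + single i j (α ^ 2) := by
  have e1 : ((up h α * low h (α ^ 3) * up h α : GL (Fin n) K) : Matrix (Fin n) (Fin n) K)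
      = D i j 0 α (α ^ 3) 0 := by
    simp only [Units.val_mul, up, low, D_mul h]
    congr 1
    · linear_combination hα
    · linear_combination α * hα
    · ring
    · linear_combination hα
  have e2 : ((up h (-α) * low h (-α ^ 3) * up h (-α) : GL (Fin n) K) : Matrix (Fin n) (Fin n) K)
      = D i j 0 (-α) (-α ^ 3) 0 := by
    simp only [Units.val_mul, up, low, D_mul h]
    congr 1
    · linear_combination hα
    · linear_combination (-α) * hα
    · ring
    · linear_combination hα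
  rw [Units.val_mul, Units.val_mul, Units.val_mul, Units.val_mul, e1, e2, ← D_up]
  simp only [Units.val_mul, up, low, D_mul h]
  congr 1
  · linear_combination (-1) * hα
  · ring
  · ring
  · linear_combination (-1) * hα

end

abbrev KK := AlgebraicClosure ℚ

def P2 (α : KK) : Submodule ℤ KK where
  carrier := {x | ∃ a b c d : ℤ, x = 2 * (a + b * α + c * α ^ 2 + d * α ^ 3)}
  zero_mem' := ⟨0, 0, 0, 0, by simp⟩
  add_mem' := by
    rintro _ _ ⟨a, b, c, d, rfl⟩ ⟨a', b', c', d', rfl⟩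
    exact ⟨a + a', b + b', c + c', d + d', by push_cast; ring⟩
  smul_mem' := by
    rintro k _ ⟨a, b, c, d, rfl⟩
    exact ⟨k * a, k * b, k * c, k * d, by rw [zsmul_eq_mul]; push_cast; ring⟩

def MM (α : KK) : Submodule ℤ KK where
  carrier := {x | ∃ a b c d : ℤ, x = a + b * α + 2 * c * α ^ 2 + d * α ^ 3}
  zero_mem' := ⟨0, 0, 0, 0, by simp⟩
  add_mem' := by
    rintro _ _ ⟨a, b, c, d, rfl⟩ ⟨a', b', c', d', rfl⟩
    exact ⟨a + a', b + b', c + c', d + d', by push_cast; ring⟩
  smul_mem' := by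
    rintro k _ ⟨a, b, c, d, rfl⟩
    exact ⟨k * a, k * b, k * c, k * d, by rw [zsmul_eq_mul]; push_cast; ring⟩

theorem P2_le (α : KK) {x : KK} (hx : x ∈ P2 α) : x ∈ MM α := by
  obtain ⟨a, b, c, d, rfl⟩ := hx
  exact ⟨2 * a, 2 * b, c, 2 * d, by push_cast; ring⟩

theorem mul_mem (α : KK) (hα : α ^ 4 = -1) {x y : KK} (hx : x ∈ MM α) (hy : y ∈ P2 α) :
    x * y ∈ P2 α := by
  obtain ⟨a, b, c, d, rfl⟩ := hx
  obtain ⟨a', b', c', d', rfl⟩ := hy
  refine ⟨a * a' - b * d' - 2 * c * c' - d * b', a * b' + b * a' - 2 * c * d' - d * c',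
    a * c' + b * b' + 2 * c * a' - d * d', a * d' + b * c' + 2 * c * b' + d * a', ?_⟩
  push_cast
  linear_combination (2 * (b * d' + 2 * c * c' + d * b') + 2 * (2 * c * d' + d * c') * α +
    2 * (d * d') * α ^ 2) * hα

theorem not_mem (α : KK) (hp : IsPrimitiveRoot α 8) : α ^ 2 ∉ MM α := by
  rintro ⟨a, b, c, d, h⟩
  have hm := Polynomial.cyclotomic_eq_minpoly_rat hp (by norm_num)
  have hdeg : (minpoly ℚ α).natDegree = 4 := by
    rw [← hm, Polynomial.natDegree_cyclotomic]; decide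
  have hli := linearIndependent_pow (K := ℚ) α
  rw [hdeg, Fintype.linearIndependent_iff] at hli
  have := hli ![a, b, 2 * c - 1, d] (by
    simp only [Fin.sum_univ_four, Algebra.smul_def]
    simp
    linear_combination -h) 2
  simp at this
  have h2 : 2 * c - 1 = 0 := by exact_mod_cast this
  omega

/-- For every order `n ≥ 2` some irreducible elementary net of `R`-modules is not closed. -/
theorem result (n : ℕ) (hn : 2 ≤ n) :
    ¬ ∀ (R : Type) [CommRing R] [IsDomain R] [IsPrincipalIdealRing R]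
      (k : Type) [Field k] [Algebra R k] [IsFractionRing R k]
      (K : Type) [Field K] [Algebra k K] [Algebra R K] [IsScalarTower R k K]
      [Algebra.IsAlgebraic k K] (σ : Fin n → Fin n → Submodule R K),
      (∀ i j, i ≠ j → σ i j ≠ ⊥) →
      (∀ i r j, i ≠ r → r ≠ j → i ≠ j → ∀ a ∈ σ i r, ∀ b ∈ σ r j, a * b ∈ σ i j) →
      IsClosedNet fun i j => (σ i j : Set K) := by
  intro h
  obtain ⟨α, hp⟩ := HasEnoughRootsOfUnity.exists_primitiveRoot KK 8
  have hα : α ^ 4 = -1 := by
    have h1 : IsPrimitiveRoot (α ^ 4) 2 := hp.pow (by norm_num) (by norm_num)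
    exact h1.eq_neg_one_of_two_right
  let σ : Fin n → Fin n → Submodule ℤ KK := fun i j => if i.val + j.val = 1 then MM α else P2 α
  have hle : ∀ i j, ∀ x ∈ σ i j, x ∈ MM α := by
    intro i j x hx
    simp only [σ] at hx
    split_ifs at hx
    · exact hx
    · exact P2_le α hx
  have hge : ∀ i j, ∀ x ∈ P2 α, x ∈ σ i j := by
    intro i j x hx
    simp only [σ]
    split_ifs
    · exact P2_le α hx
    · exact hx
  haveI : Algebra.IsAlgebraic ℚ KK := AlgebraicClosure.isAlgebraic ℚ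
  have hc := h ℤ ℚ KK σ
    (fun i j _ hb => by
      have h2 : (2 : KK) ∈ σ i j := hge i j 2 ⟨1, 0, 0, 0, by simp⟩
      rw [hb, Submodule.mem_bot] at h2
      exact two_ne_zero h2)
    (fun i r j h1 h2 h3 a ha b hb => by
      apply hge
      by_cases c1 : r.val + j.val = 1
      · have c2 : ¬ i.val + r.val = 1 := fun c2 => h3 (Fin.ext (by omega))
        simp only [σ, c2, if_false] at ha
        rw [mul_comm]
        exact mul_mem α hα (hle _ _ _ hb) ha
      · simp only [σ, c1, if_false] at hb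
        exact mul_mem α hα (hle _ _ _ ha) hb)
  let i : Fin n := ⟨0, by omega⟩
  let j : Fin n := ⟨1, by omega⟩
  have hij : i ≠ j := fun e => by simpa [i, j] using congrArg Fin.val e
  have s1 : σ i j = MM α := by simp [σ, i, j]
  have s2 : σ j i = MM α := by simp [σ, i, j]
  have hu : ∀ a ∈ MM α, up hij a ∈ netGroup fun i j => (σ i j : Set KK) := fun a ha =>
    Subgroup.subset_closure ⟨i, j, a, hij, by simpa [s1] using ha, D_up a⟩
  have hl : ∀ a ∈ MM α, low hij a ∈ netGroup fun i j => (σ i j : Set KK) := fun a ha =>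
    Subgroup.subset_closure ⟨j, i, a, hij.symm, by simpa [s2] using ha, D_low a⟩
  have m1 : (1 : KK) ∈ MM α := ⟨1, 0, 0, 0, by simp⟩
  have m2 : α ∈ MM α := ⟨0, 1, 0, 0, by simp⟩
  have m3 : α ^ 3 ∈ MM α := ⟨0, 0, 0, 1, by simp⟩
  have := hc i j (α ^ 2) hij _ (by
    refine Subgroup.mul_mem _ (Subgroup.mul_mem _ (Subgroup.mul_mem _ (Subgroup.mul_mem _
      (Subgroup.mul_mem _ (Subgroup.mul_mem _ (hu _ m2) (hl _ m3)) (hu _ m2))
      (Subgroup.mul_mem _ (Subgroup.mul_mem _ (hu _ (neg_mem m1)) (hl _ m1)) (hu _ (neg_mem m1))))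
      (hu _ m1)) (Subgroup.mul_mem _ (Subgroup.mul_mem _ (hu _ m1) (hl _ (neg_mem m1))) (hu _ m1)))
      (Subgroup.mul_mem _ (Subgroup.mul_mem _ (hu _ (neg_mem m2)) (hl _ (neg_mem m3)))
        (hu _ (neg_mem m2)))) (key hij α hα)
  simp only [s1, SetLike.mem_coe] at this
  exact not_mem α hp this

end Pool.Agent.Results.MP_9bf48e_al.NotClosed
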